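import Pool.Agent.H5.FR2.Stmts

/-!
# Project URB: module KRA
-/

set_option autoImplicit false

namespace Pool.Agent.H5.FR2

open Finset Pool.Agent.H5.FR Pool.Agent.H80

/-- tensor product of matrices -/
private noncomputable def kraT {d : ℕ} {X Y : Fin d → Type}
    (P : ∀ i, Matrix (X i) (Y i) ℂ) : Matrix (∀ i, X i) (∀ i, Y i) ℂ :=
  fun p q => ∏ i, P i (p i) (q i)

private theorem kraT_mul {d : ℕ} {X Y Z : Fin d → Type} [∀ i, Fintype (Y i)]
    [∀ i, DecidableEq (Y i)] (P : ∀ i, Matrix (X i) (Y i) ℂ) (Q : ∀ i, Matrix (Y i) (Z i) ℂ) :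
    kraT (fun i => P i * Q i) = kraT P * kraT Q := by
  ext p q
  simp only [kraT, Matrix.mul_apply]
  rw [Finset.prod_univ_sum, Fintype.piFinset_univ]
  apply Finset.sum_congr rfl
  intro r _
  rw [Finset.prod_mul_distrib]

private theorem kraT_one {d : ℕ} {X : Fin d → Type} [∀ i, Fintype (X i)]
    [∀ i, DecidableEq (X i)] :
    kraT (fun i => (1 : Matrix (X i) (X i) ℂ)) = 1 := by
  ext p q
  simp only [kraT, Matrix.one_apply]
  by_cases h : p = q
  · subst h
    simp
  · rw [if_neg h]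
    obtain ⟨i, hi⟩ := Function.ne_iff.1 h
    exact Finset.prod_eq_zero (Finset.mem_univ i) (if_neg hi)

private theorem kraT_unit {d : ℕ} {X : Fin d → Type} [∀ i, Fintype (X i)]
    [∀ i, DecidableEq (X i)] (P : ∀ i, Matrix (X i) (X i) ℂ) (h : ∀ i, IsUnit (P i)) :
    IsUnit (kraT P).det := by
  choose u hu using h
  have h1 : kraT P * kraT (fun i => ((u i)⁻¹ : (Matrix (X i) (X i) ℂ)ˣ).val) = 1 := by
    rw [← kraT_mul, ← kraT_one]
    congr 1
    funext i
    rw [← hu i]
    exact Units.mul_inv (u i)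
  have h2 := congrArg Matrix.det h1
  rw [Matrix.det_mul, Matrix.det_one] at h2
  exact IsUnit.of_mul_eq_one _ h2

private theorem kraT_app {d n : ℕ} {X Y : Fin d → Type}
    (A : ∀ i, Fin n → Matrix (X i) (Y i) ℂ) (f : MvPolynomial (Fin d × Fin n) ℂ) :
    app A f = ∑ a : Fin d → Fin n,
      f.coeff (∑ i, Finsupp.single (i, a i) 1) • kraT (fun i => A i (a i)) := by
  ext p q
  simp only [app, kraT, Matrix.sum_apply, Matrix.smul_apply, smul_eq_mul]

theorem kra_thm : KRAStmt := by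
  intro d n X Y _ _ _ _ A P Q hP hQ f
  have h : app (fun i a => P i * A i a * Q i) f = kraT P * app A f * kraT Q := by
    rw [kraT_app, kraT_app, Matrix.mul_sum, Matrix.sum_mul]
    apply Finset.sum_congr rfl
    intro a _
    rw [kraT_mul, kraT_mul, Matrix.mul_smul, Matrix.smul_mul]
  rw [h, Matrix.rank_mul_eq_left_of_isUnit_det _ _ (kraT_unit Q hQ),
    Matrix.rank_mul_eq_right_of_isUnit_det _ _ (kraT_unit P hP)]

end Pool.Agent.H5.FR2
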