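import Pool.Agent.H5.FR2.Stmts

/-!
# Project URB: module KRN
-/

set_option autoImplicit false

namespace Pool.Agent.H5.FR2

open Finset Pool.Agent.H5.FR Pool.Agent.H80

/-- sums over tuples -/
private theorem krn_sum {d : ℕ} {X : Fin (d + 1) → Type} [∀ i, Fintype (X i)]
    (F : (∀ i : Fin d, X i.castSucc) → ℂ) (G : X (Fin.last d) → ℂ) :
    ∑ p : (∀ i, X i), F (fun i => p i.castSucc) * G (p (Fin.last d)) = (∑ a, F a) * ∑ b, G b := by
  rw [Finset.sum_mul_sum, ← Fintype.sum_prod_type' (f := fun a b => F a * G b)]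
  let e : (∀ i, X i) ≃ ((∀ i : Fin d, X i.castSucc) × X (Fin.last d)) :=
    { toFun := fun p => (fun i => p i.castSucc, p (Fin.last d))
      invFun := fun z => Fin.snoc z.1 z.2
      left_inv := fun p => by
        refine funext fun i => ?_
        refine Fin.lastCases ?_ (fun j => ?_) i
        · simp
        · simp
      right_inv := fun z => by
        refine Prod.ext ?_ ?_
        · funext i
          simp
        · simp }
  exact Fintype.sum_equiv e _ _ (fun p => rfl)

private theorem krn_trace {d : ℕ} {X : Fin (d + 1) → Type} [∀ i, Fintype (X i)]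
    (K : Matrix (∀ i, X i) (∀ i, X i) ℂ)
    (K₁ : Matrix (∀ i : Fin d, X i.castSucc) (∀ i : Fin d, X i.castSucc) ℂ)
    (K₂ : Matrix (X (Fin.last d)) (X (Fin.last d)) ℂ)
    (h : ∀ p p', K p p' = K₁ (fun i => p i.castSucc) (fun i => p' i.castSucc) *
      K₂ (p (Fin.last d)) (p' (Fin.last d))) :
    K.trace = K₁.trace * K₂.trace ∧ (K * K).trace = (K₁ * K₁).trace * (K₂ * K₂).trace := by
  constructor
  · simp only [Matrix.trace, Matrix.diag_apply, h]
    exact krn_sum (fun a => K₁ a a) (fun b => K₂ b b)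
  · simp only [Matrix.trace, Matrix.diag_apply, Matrix.mul_apply, h]
    rw [← krn_sum (X := X) (fun a => ∑ a', K₁ a a' * K₁ a' a) (fun b => ∑ b', K₂ b b' * K₂ b' b)]
    apply Finset.sum_congr rfl
    intro p _
    rw [← krn_sum (X := X) (fun a' => K₁ (fun i => p i.castSucc) a' * K₁ a' (fun i => p i.castSucc))
      (fun b' => K₂ (p (Fin.last d)) b' * K₂ b' (p (Fin.last d)))]
    apply Finset.sum_congr rfl
    intro p' _
    ring

private theorem krn_herm {Z : Type} [Fintype Z] (K : Matrix Z Z ℂ) (h : K.conjTranspose = K) :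
    K.trace.im = 0 ∧ (K * K).trace.im = 0 := by
  have h1 : ∀ K : Matrix Z Z ℂ, K.conjTranspose = K → K.trace.im = 0 := by
    intro K h
    have h2 := Matrix.trace_conjTranspose K
    rw [h] at h2
    have h3 := congrArg Complex.im h2
    simp only [Complex.star_def, Complex.conj_im] at h3
    linarith
  refine ⟨h1 K h, h1 _ ?_⟩
  rw [Matrix.conjTranspose_mul, h]

private theorem krn_KK {X Y ι : Type} [Fintype X] [Fintype Y] [Fintype ι]
    (B : ι → Matrix X Y ℂ) : (KK B).conjTranspose = KK B := by
  unfold KK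
  rw [Matrix.conjTranspose_sum]
  apply Finset.sum_congr rfl
  intro a _
  rw [Matrix.conjTranspose_mul, Matrix.conjTranspose_conjTranspose]

private theorem krn_LL {X Y ι : Type} [Fintype X] [Fintype Y] [Fintype ι]
    (B : ι → Matrix X Y ℂ) : (LL B).conjTranspose = LL B := by
  unfold LL
  rw [Matrix.conjTranspose_sum]
  apply Finset.sum_congr rfl
  intro a _
  rw [Matrix.conjTranspose_mul, Matrix.conjTranspose_conjTranspose]

theorem krn_thm : KRNStmt := by
  intro d X Y _ _ _ _ S N _ _ M A B hB
  have hK : ∀ p p', KK B p p' = KK M (fun i => p i.castSucc) (fun i => p' i.castSucc) *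
      KK A (p (Fin.last d)) (p' (Fin.last d)) := by
    intro p p'
    simp only [KK, Matrix.sum_apply, Matrix.mul_apply, Matrix.conjTranspose_apply, hB]
    rw [Finset.sum_mul_sum, Fintype.sum_prod_type]
    apply Finset.sum_congr rfl
    intro s _
    apply Finset.sum_congr rfl
    intro t _
    rw [← krn_sum (X := Y)
      (fun q => M s (fun i => p i.castSucc) q * star (M s (fun i => p' i.castSucc) q))
      (fun q => A t (p (Fin.last d)) q * star (A t (p' (Fin.last d)) q))]
    apply Finset.sum_congr rfl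
    intro q _
    rw [star_mul']
    ring
  have hL : ∀ q q', LL B q q' = LL M (fun i => q i.castSucc) (fun i => q' i.castSucc) *
      LL A (q (Fin.last d)) (q' (Fin.last d)) := by
    intro q q'
    simp only [LL, Matrix.sum_apply, Matrix.mul_apply, Matrix.conjTranspose_apply, hB]
    rw [Finset.sum_mul_sum, Fintype.sum_prod_type]
    apply Finset.sum_congr rfl
    intro s _
    apply Finset.sum_congr rfl
    intro t _
    rw [← krn_sum (X := X)
      (fun p => star (M s p (fun i => q i.castSucc)) * M s p (fun i => q' i.castSucc))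
      (fun p => star (A t p (q (Fin.last d))) * A t p (q' (Fin.last d)))]
    apply Finset.sum_congr rfl
    intro p _
    rw [star_mul']
    ring
  obtain ⟨hK1, hK2⟩ := krn_trace _ _ _ hK
  obtain ⟨-, hL2⟩ := krn_trace _ _ _ hL
  obtain ⟨a1, a2⟩ := krn_herm _ (krn_KK M)
  obtain ⟨b1, b2⟩ := krn_herm _ (krn_KK A)
  obtain ⟨-, c2⟩ := krn_herm _ (krn_LL M)
  refine ⟨?_, ?_, ?_⟩
  · rw [tr1, tr1, tr1, hK1, Complex.mul_re, a1, b1]
    ring
  · rw [tr2, tr2, tr2, hK2, Complex.mul_re, a2, b2]
    ring
  · rw [tr2, tr2, tr2, hL2, Complex.mul_re, c2]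
    ring

end Pool.Agent.H5.FR2
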