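import Pool.Agent.H5.FR2.Stmts

/-!
# Project URB: module STP
-/

set_option autoImplicit false

namespace Pool.Agent.H5.FR2

open Finset Pool.Agent.H5.FR Pool.Agent.H80

theorem stp_thm (hAVG : AVGStmt) : STPStmt := by
  intro X Y C O _ _ _ _ _ _ _ _ B a b c hc
  obtain ⟨h1, h2, h3⟩ := hAVG X Y C O B
  by_contra hcon
  push Not at hcon
  have h4 := Finset.sum_lt_sum_of_nonempty (s := (Finset.univ : Finset (C → O → Fin 8)))
    Finset.univ_nonempty (fun G _ => hcon (fun c v => zz (G c v)))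
  have hcs := sq_sum_le_card_mul_sum_sq (s := (Finset.univ : Finset (C → O → Fin 8)))
    (f := fun G => tr1 (KK (fun v => mix B (fun c => zz (G c v)))))
  rw [Finset.sum_const, nsmul_eq_mul, Finset.sum_sub_distrib, Finset.sum_add_distrib,
    ← Finset.mul_sum, ← Finset.mul_sum, ← Finset.mul_sum, h2, h3] at h4
  rw [h1] at hcs
  simp only [Finset.card_univ] at h4 hcs
  have hN : (0:ℝ) < (Fintype.card (C → O → Fin 8) : ℝ) := by
    exact_mod_cast Fintype.card_pos
  generalize (Fintype.card (C → O → Fin 8) : ℝ) = N at h4 hcs hN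
  generalize (∑ G : C → O → Fin 8, tr1 (KK (fun v => mix B (fun c => zz (G c v)))) ^ 2) = T at h4 hcs
  have h5 : N * ((Fintype.card O : ℝ) * tr1 (KK B)) ^ 2 ≤ T := by
    have h6 : N * (N * ((Fintype.card O : ℝ) * tr1 (KK B)) ^ 2) ≤ N * T := by
      calc N * (N * ((Fintype.card O : ℝ) * tr1 (KK B)) ^ 2) =
            (N * ((Fintype.card O : ℝ) * tr1 (KK B))) ^ 2 := by ring
        _ ≤ N * T := hcs
    exact le_of_mul_le_mul_left h6 hN
  have h7 := mul_le_mul_of_nonneg_left h5 hc
  nlinarith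

end Pool.Agent.H5.FR2
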